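import Pool.Agent.N963.GN.Stm

/-!
Hadamard's three circles theorem from the three lines theorem (helper97).
-/

set_option autoImplicit false

namespace Pool.Agent.N97.GN

open Complex Set

theorem c1 : Pool.Agent.N963.GN.S_C := by
  intro r1 r2 r3 h1 h12 h23
  have h2 : 0 < r2 := h1.trans h12
  have h3 : 0 < r3 := h2.trans h23
  have l12 : Real.log r1 < Real.log r2 := Real.log_lt_log h1 h12
  have l23 : Real.log r2 < Real.log r3 := Real.log_lt_log h2 h23
  have l13 : Real.log r1 < Real.log r3 := l12.trans l23
  refine ⟨(Real.log r2 - Real.log r1) / (Real.log r3 - Real.log r1),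
    div_pos (by linarith) (by linarith), (div_lt_one (by linarith)).2 (by linarith), ?_⟩
  intro f c M1 M3 hM1 hM3 hf hb1 hb3 z hz
  set g : ℂ → ℂ := fun w => f (c + exp w) with hg
  have hmaps : MapsTo (fun w : ℂ => c + exp w)
      (HadamardThreeLines.verticalClosedStrip (Real.log r1) (Real.log r3))
      (Metric.closedBall c r3) := by
    intro w hw
    rw [mem_closedBall_iff_norm, add_sub_cancel_left, norm_exp]
    have : w.re ≤ Real.log r3 := hw.2
    calc Real.exp w.re ≤ Real.exp (Real.log r3) := Real.exp_le_exp.2 this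
      _ = r3 := Real.exp_log h3
  have hd : DifferentiableOn ℂ g
      (HadamardThreeLines.verticalClosedStrip (Real.log r1) (Real.log r3)) := by
    refine hf.comp ?_ hmaps
    exact ((differentiable_const c).add differentiable_exp).differentiableOn
  have hcl : closure (HadamardThreeLines.verticalStrip (Real.log r1) (Real.log r3)) ⊆
      HadamardThreeLines.verticalClosedStrip (Real.log r1) (Real.log r3) := by
    refine closure_minimal (fun w hw => ⟨hw.1.le, hw.2.le⟩) ?_
    exact isClosed_Icc.preimage continuous_re
  have hdc : DiffContOnCl ℂ g (HadamardThreeLines.verticalStrip (Real.log r1) (Real.log r3)) :=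
    (hd.mono hcl).diffContOnCl
  have hB : BddAbove ((norm ∘ g) ''
      HadamardThreeLines.verticalClosedStrip (Real.log r1) (Real.log r3)) := by
    obtain ⟨C, hC⟩ := (isCompact_closedBall c r3).exists_bound_of_continuousOn hf.continuousOn
    refine ⟨C, ?_⟩
    rintro _ ⟨w, hw, rfl⟩
    exact hC _ (hmaps hw)
  have ha : ∀ w ∈ re ⁻¹' {Real.log r1}, ‖g w‖ ≤ M1 := by
    intro w hw
    apply hb1
    rw [add_sub_cancel_left, norm_exp]
    rw [mem_preimage, mem_singleton_iff] at hw
    rw [hw, Real.exp_log h1]
  have hb : ∀ w ∈ re ⁻¹' {Real.log r3}, ‖g w‖ ≤ M3 := by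
    intro w hw
    apply hb3
    rw [add_sub_cancel_left, norm_exp]
    rw [mem_preimage, mem_singleton_iff] at hw
    rw [hw, Real.exp_log h3]
  have hz0 : z - c ≠ 0 := by
    intro h
    rw [h, norm_zero] at hz
    linarith
  have hre : (log (z - c)).re = Real.log r2 := by
    rw [log_re, hz]
  have hmem : log (z - c) ∈ HadamardThreeLines.verticalClosedStrip (Real.log r1) (Real.log r3) := by
    show (log (z - c)).re ∈ Icc _ _
    rw [hre]
    exact ⟨l12.le, l23.le⟩
  have key := HadamardThreeLines.norm_le_interp_of_mem_verticalClosedStrip' l13 hmem hdc hB ha hb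
  rw [hre] at key
  have e : g (log (z - c)) = f z := by
    show f (c + exp (log (z - c))) = f z
    rw [exp_log hz0, add_sub_cancel]
  rwa [e] at key

end Pool.Agent.N97.GN
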